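import Mathlib
import Pool.Agent.H666R3.PC.Defs
import Pool.Agent.H666R3.PC.Final

set_option autoImplicit false

namespace Pool.Agent.Results.MP_a1e8df_an.NotPseudocompact

open Pool.Agent.H666R3.PC

universe u v

/-- There is a countable residually finite icc group `G` that is not inner amenable such that
`L(G)` is not pseudocompact: it is elementarily equivalent to no matrix ultraproduct
`∏_{n → U} M_n(ℂ)` along a nonprincipal ultrafilter `U` on `ℕ`. -/
theorem result : ∃ (G : Type) (_ : Group G), Countable G ∧ IsResiduallyFinite G ∧ IsICC G ∧
    ¬ IsInnerAmenable G ∧ ¬ Pseudocompact.{u, v} G :=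
  main.{u, v}

end Pool.Agent.Results.MP_a1e8df_an.NotPseudocompact
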